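import Pool.Agent.V11238.LZ.Core

/-!
# MP_37e11d_lc: the self-referencing LZ77 size of a suffix is polynomially bounded
-/

namespace Pool.Agent.Results.MP_37e11d_lc.SuffixPoly

open Pool.Agent.V11238.LZ

/-! ### Definitions (positions are indexed from `0`) -/

/-- The factor of `S` of length `ℓ` starting at position `u` also occurs at position `j`. -/
def OccursAt {α : Type*} (S : List α) (j u ℓ : ℕ) : Prop := ∀ t < ℓ, S[j + t]? = S[u + t]?

/-- The nonempty prefix of length `ℓ` of `S[u..]` has no occurrence starting before `u`. -/
def NewPrefix {α : Type*} (S : List α) (u ℓ : ℕ) : Prop :=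
  1 ≤ ℓ ∧ u + ℓ ≤ S.length ∧ ∀ j < u, ¬ OccursAt S j u ℓ

open Classical in
/-- Length of the factor starting at `u`: the shortest nonempty prefix of `S[u..]` with no occurrence
starting before `u`, and all of `S[u..]` if there is none. -/
noncomputable def factorLen {α : Type*} (S : List α) (u : ℕ) : ℕ :=
  if h : ∃ ℓ, NewPrefix S u ℓ then Nat.find h else S.length - u

/-- Starting position of the `k`-th factor (`k = 0, 1, …`). -/
noncomputable def start {α : Type*} (S : List α) : ℕ → ℕ
  | 0 => 0
  | k + 1 => start S k + factorLen S (start S k)

/-- `zs(S)`: the number of factors, i.e. the least `k` such that the first `k` factors exhaust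
`S`. -/
noncomputable def zs {α : Type*} (S : List α) : ℕ := sInf {k | S.length ≤ start S k}

/-! ### Proofs -/

variable {α : Type*}

lemma factorLen_pos (S : List α) {u : ℕ} (hu : u < S.length) : 1 ≤ factorLen S u := by
  classical
  unfold factorLen
  split_ifs with h
  · exact (Nat.find_spec h).1
  · omega

lemma factorLen_le (S : List α) {u : ℕ} (hu : u ≤ S.length) : u + factorLen S u ≤ S.length := by
  classical
  unfold factorLen
  split_ifs with h
  · exact (Nat.find_spec h).2.1
  · omega

lemma start_le (S : List α) (k : ℕ) : start S k ≤ S.length := by
  induction k with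
  | zero => exact Nat.zero_le _
  | succ k ih => exact factorLen_le S ih

lemma start_mono (S : List α) (k : ℕ) : start S k ≤ start S (k + 1) := Nat.le_add_right _ _

lemma start_ge (S : List α) (k : ℕ) : min k S.length ≤ start S k := by
  induction k with
  | zero => simp
  | succ k ih =>
    by_cases h : start S k < S.length
    · have h1 := factorLen_pos S h
      have h2 : start S (k + 1) = start S k + factorLen S (start S k) := rfl
      omega
    · have := start_mono S k
      omega

lemma zs_spec (S : List α) : start S (zs S) = S.length := by
  have hne : ({k | S.length ≤ start S k} : Set ℕ).Nonempty := by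
    refine ⟨S.length, ?_⟩
    have := start_ge S S.length
    rw [min_self] at this
    exact this
  exact le_antisymm (start_le S _) (Nat.sInf_mem hne)

lemma zs_le {S : List α} {k : ℕ} (h : S.length ≤ start S k) : zs S ≤ k := Nat.sInf_le h

/-- The greedy factorisation needs at most as many factors as any parse. -/
lemma greedy {S : List α} {a n m : ℕ} (h : Parse (fun p => S[p]?) 0 a n m) (hn : n = S.length) :
    ∀ k, a ≤ start S k → S.length ≤ start S (k + m) := by
  induction h with
  | nil a => intro k hk; subst hn; exact hk
  | @cons a b c m hab hh hp ih =>
    intro k hk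
    have hbc := hp.le
    rw [show k + (m + 1) = (k + 1) + m by omega]
    refine ih hn (k + 1) ?_
    by_cases hb : b ≤ start S k
    · exact hb.trans (start_mono S k)
    push Not at hb
    change b ≤ start S k + factorLen S (start S k)
    have hpos := factorLen_pos S (show start S k < S.length by omega)
    rcases hh with h1 | ⟨j, -, hj, hocc⟩
    · omega
    · classical
      unfold factorLen at hpos ⊢
      split_ifs at hpos ⊢ with hex
      · by_contra hcon
        push Not at hcon
        obtain ⟨h2, h3, h4⟩ := Nat.find_spec hex
        refine h4 (j + (start S k - a)) (by omega) ?_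
        intro t ht
        have := hocc (start S k - a + t) (by omega)
        simp only at this
        rw [show j + (start S k - a) + t = j + (start S k - a + t) by omega, this]
        congr 1
        omega
      · omega

/-- The greedy factorisation gives a parse. -/
lemma parse_start (S : List α) (k : ℕ) :
    ∃ m, Parse (fun p => S[p]?) 0 0 (start S k) m ∧ m ≤ 2 * k := by
  classical
  induction k with
  | zero => exact ⟨0, Parse.nil 0, le_rfl⟩
  | succ k ih =>
    obtain ⟨m, hm, hmk⟩ := ih
    obtain ⟨m', hm', hm2⟩ : ∃ m', Parse (fun p => S[p]?) 0 (start S k) (start S (k + 1)) m' ∧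
        m' ≤ 2 := by
      by_cases hlt : start S k < S.length
      swap
      · have h1 : start S (k + 1) = start S k := by
          have := start_le S (k + 1)
          have := start_mono S k
          omega
        rw [h1]
        exact ⟨0, Parse.nil _, by omega⟩
      have hpos := factorLen_pos S hlt
      have hst : start S (k + 1) = start S k + factorLen S (start S k) := rfl
      rw [hst]
      by_cases h1 : factorLen S (start S k) = 1
      · rw [h1]
        exact ⟨1, Parse.one (by omega) (Or.inl rfl), by omega⟩
      by_cases hex : ∃ ℓ, NewPrefix S (start S k) ℓ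
      · have hfl : factorLen S (start S k) = Nat.find hex := by
          unfold factorLen; rw [dif_pos hex]
        set L := factorLen S (start S k) with hL
        have hmin : ¬ NewPrefix S (start S k) (L - 1) := by
          refine Nat.find_min hex ?_
          omega
        have hspec := Nat.find_spec hex
        rw [← hfl] at hspec
        have hocc : ∃ j < start S k, OccursAt S j (start S k) (L - 1) := by
          by_contra hcon
          push Not at hcon
          exact hmin ⟨by omega, by have := hspec.2.1; omega, hcon⟩
        obtain ⟨j, hj, hocc⟩ := hocc
        refine ⟨1 + 1, (Parse.one (b := start S k + (L - 1)) (by omega)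
          (Or.inr ⟨j, Nat.zero_le _, hj, ?_⟩)).append
          (Parse.one (by omega) (Or.inl (by omega))), le_rfl⟩
        intro t ht
        exact hocc t (by omega)
      · have hfl : factorLen S (start S k) = S.length - start S k := by
          unfold factorLen; rw [dif_neg hex]
        have hocc : ∃ j < start S k, OccursAt S j (start S k) (S.length - start S k) := by
          by_contra hcon
          push Not at hcon
          exact hex ⟨S.length - start S k, by omega, by omega, hcon⟩
        obtain ⟨j, hj, hocc⟩ := hocc
        refine ⟨1, Parse.one (by omega) (Or.inr ⟨j, Nat.zero_le _, hj, ?_⟩), by omega⟩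
        intro t ht
        exact hocc t (by omega)
    exact ⟨m + m', hm.append hm', by omega⟩

/-- Shifting a parse. -/
lemma shift {β : Type*} {s : ℕ → β} {i a b m : ℕ} (h : Parse s i a b m) (hi : i ≤ a) :
    Parse (fun p => s (i + p)) 0 (a - i) (b - i) m := by
  induction h with
  | nil a => exact Parse.nil _
  | @cons a b c m hab hh hp ih =>
    refine Parse.cons (b := b - i) (by omega) ?_ (ih (by omega))
    rcases hh with h | ⟨j, h1, h2, h3⟩
    · left; omega
    · right
      refine ⟨j - i, Nat.zero_le _, by omega, ?_⟩
      intro t ht
      have := h3 t (by omega)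
      simp only
      rw [show i + (j - i + t) = j + t by omega, show i + (a - i + t) = a + t by omega]
      exact this

/-- **Theorem.** The self-referencing LZ77 size of every suffix is at most `5184 · zs(S)^4`; in
particular it is polynomially bounded in `zs(S)`. -/
theorem result {α : Type*} (S : List α) (i : ℕ) (hi : i < S.length) :
    zs (S.drop i) ≤ 5184 * zs S ^ 4 := by
  obtain ⟨m, hm, hmz⟩ := parse_start S (zs S)
  rw [zs_spec] at hm
  obtain ⟨m', h1, h2⟩ := suffix_parse hm i hi.le
  have h3 := shift h1 le_rfl
  rw [Nat.sub_self] at h3
  have h4 : Parse (fun p => (S.drop i)[p]?) 0 0 (S.length - i) m' := by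
    have : (fun p => (S.drop i)[p]?) = fun p => S[i + p]? := by
      funext p
      rw [List.getElem?_drop]
    rw [this]
    exact h3
  have h5 := greedy h4 (by rw [List.length_drop]) 0 (Nat.zero_le _)
  rw [Nat.zero_add] at h5
  have h6 := zs_le h5
  have hz : 1 ≤ zs S := by
    by_contra hcon
    have h0 : zs S = 0 := by omega
    have := zs_spec S
    rw [h0] at this
    change 0 = S.length at this
    omega
  calc zs (S.drop i) ≤ m' := h6
    _ ≤ ((3 * m + 2) * (m + 1) + 2) ^ 2 := h2
    _ ≤ ((3 * (2 * zs S) + 2) * (2 * zs S + 1) + 2) ^ 2 := by gcongr
    _ ≤ (72 * zs S ^ 2) ^ 2 := by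
        refine Nat.pow_le_pow_left ?_ 2
        nlinarith
    _ = 5184 * zs S ^ 4 := by ring

end Pool.Agent.Results.MP_37e11d_lc.SuffixPoly
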